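import Mathlib

/-!
# A component of the intersection of two irreducible balanced complexes
# which misses the non-empty stable intersection
-/

set_option autoImplicit false

namespace Pool.Agent.Results.MP_7d0545_co.IrreducibleComplex

/-! ### Definitions -/

/-- An integer vector, as a vector of `ℝⁿ`. -/
def real {n : ℕ} (v : Fin n → ℤ) : Fin n → ℝ := fun i => (v i : ℝ)

/-- A polyhedron in `ℝⁿ`: a set defined by finitely many inequalities `∑ i, A j i * x i ≤ b j`. -/
def IsPolyhedron {n : ℕ} (P : Set (Fin n → ℝ)) : Prop :=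
  ∃ (κ : Type) (_ : Fintype κ) (A : κ → Fin n → ℝ) (b : κ → ℝ),
    P = {x | ∀ j, ∑ i, A j i * x i ≤ b j}

/-- `F` is a non-empty face of `P`: the set of points of `P` at which some linear functional attains
its maximum over `P`. -/
def IsFace {n : ℕ} (F P : Set (Fin n → ℝ)) : Prop :=
  F.Nonempty ∧ ∃ l : (Fin n → ℝ) →ₗ[ℝ] ℝ, F = {x | x ∈ P ∧ ∀ y ∈ P, l y ≤ l x}

/-- The dimension of a polyhedron: the dimension of the space spanned by the differences of its
points (`vectorSpan`). -/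
noncomputable def dim {n : ℕ} (P : Set (Fin n → ℝ)) : ℕ := Module.finrank ℝ (vectorSpan ℝ P)

/-- `v` is a primitive integer normal vector of `τ` pointing into `σ`: it lies in the direction
space of `σ`, generates the integer points of that space modulo the direction space of `τ`, and is
congruent to a positive multiple of `y - x` for some `x ∈ τ`, `y ∈ σ`. -/
def IsPrimitiveNormal {n : ℕ} (τ σ : Set (Fin n → ℝ)) (v : Fin n → ℤ) : Prop :=
  real v ∈ vectorSpan ℝ σ ∧
  (∀ z : Fin n → ℤ, real z ∈ vectorSpan ℝ σ →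
    ∃ k : ℤ, real z - (k : ℝ) • real v ∈ vectorSpan ℝ τ) ∧
  ∃ x ∈ τ, ∃ y ∈ σ, ∃ c : ℝ, 0 < c ∧ real v - c • (y - x) ∈ vectorSpan ℝ τ

/-- A (finite) rational polyhedral complex in `ℝⁿ`, pure of dimension `d`. The cells are indexed by
a finite type. -/
structure RationalComplex (n : ℕ) where
  /-- the dimension -/
  d : ℕ
  /-- the index type of the cells -/
  ι : Type
  [fin : Fintype ι]
  /-- the cells -/
  cell : ι → Set (Fin n → ℝ)
  inj : Function.Injective cell
  polyhedron : ∀ i, IsPolyhedron (cell i)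
  nonempty : ∀ i, (cell i).Nonempty
  rational : ∀ i, ∃ S : Set (Fin n → ℤ), vectorSpan ℝ (cell i) = Submodule.span ℝ (real '' S)
  face : ∀ i F, IsFace F (cell i) → ∃ j, cell j = F
  inter : ∀ i j, (cell i ∩ cell j).Nonempty →
    IsFace (cell i ∩ cell j) (cell i) ∧ IsFace (cell i ∩ cell j) (cell j)
  dim_le : ∀ i, dim (cell i) ≤ d
  pure : ∀ i, ∃ j, cell i ⊆ cell j ∧ dim (cell j) = d

attribute [instance] RationalComplex.fin

open Classical in
/-- The balancing condition for real weights `w` on the cells of a complex (only the weights of the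
`d`-dimensional cells matter): at every `(d-1)`-dimensional cell `τ` the weighted sum of primitive
integer normal vectors pointing into the `d`-dimensional cells containing `τ` lies in the direction
space of `τ`. -/
def RationalComplex.IsBalanced {n : ℕ} (S : RationalComplex n) (w : S.ι → ℝ) : Prop :=
  ∀ τ : S.ι, dim (S.cell τ) + 1 = S.d → ∃ v : S.ι → Fin n → ℤ,
    (∀ σ, dim (S.cell σ) = S.d ∧ S.cell τ ⊆ S.cell σ →
      IsPrimitiveNormal (S.cell τ) (S.cell σ) (v σ)) ∧
    ∑ σ, (if dim (S.cell σ) = S.d ∧ S.cell τ ⊆ S.cell σ then w σ • real (v σ) else 0) ∈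
      vectorSpan ℝ (S.cell τ)

/-- A balanced polyhedral complex: a rational complex with positive integer weights on the
`d`-dimensional cells satisfying the balancing condition. -/
structure BalancedComplex (n : ℕ) extends RationalComplex n where
  /-- the weights -/
  weight : ι → ℕ
  weight_pos : ∀ i, dim (cell i) = d → 0 < weight i
  balanced : toRationalComplex.IsBalanced (fun i => (weight i : ℝ))

/-- The support: the union of the cells. -/
def BalancedComplex.support {n : ℕ} (S : BalancedComplex n) : Set (Fin n → ℝ) :=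
  {x | ∃ i, x ∈ S.cell i}

/-- Irreducible: all balanced real weights on the `d`-dimensional cells are multiples of the given
weight. -/
def BalancedComplex.Irreducible {n : ℕ} (S : BalancedComplex n) : Prop :=
  ∀ w : S.ι → ℝ, S.toRationalComplex.IsBalanced w →
    ∃ c : ℝ, ∀ i, dim (S.cell i) = S.d → w i = c * S.weight i

/-- The support of the stable intersection: the union of the sets `σ ∩ τ` over the cells `σ` of `S`
and `τ` of `T` whose direction spaces together span `ℝⁿ`, that is, `dim (σ + τ) = n`. -/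
def stableSupport {n : ℕ} (S T : BalancedComplex n) : Set (Fin n → ℝ) :=
  {x | ∃ i j, x ∈ S.cell i ∧ x ∈ T.cell j ∧
    vectorSpan ℝ (S.cell i) ⊔ vectorSpan ℝ (T.cell j) = ⊤}

/-! ### The rays -/

/-- the rays `n = -e₃, a₁ = e₁ + e₃, a₂ = -e₁ + e₃, f = e₂ + e₃, b = e₂, c = -e₂, u₁ = -e₃ + e₄,
`u₂ = -e₃ - e₄` -/
def r : Fin 8 → Fin 4 → ℤ :=
  ![![0, 0, -1, 0], ![1, 0, 1, 0], ![-1, 0, 1, 0], ![0, 1, 1, 0], ![0, 1, 0, 0], ![0, -1, 0, 0],
    ![0, 0, -1, 1], ![0, 0, -1, -1]]

/-- the sets of rays of the twenty cones -/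
def supp : Fin 20 → Finset (Fin 8) :=
  ![∅, {0}, {1}, {2}, {3}, {4}, {5}, {6}, {7}, {0, 1}, {0, 2}, {1, 3}, {2, 3}, {1, 5}, {2, 5},
    {3, 4}, {4, 6}, {5, 6}, {4, 7}, {5, 7}]

/-- the weights -/
def wt : Fin 20 → ℕ := fun k => if k = 15 then 2 else 1

/-- integer dot product -/
def dot (l v : Fin 4 → ℤ) : ℤ := ∑ i, l i * v i

/-- a full dimensional set of four rays containing the given one -/
def ext (S : Finset (Fin 8)) : Finset (Fin 8) :=
  {if 2 ∈ S then 2 else 1, if 7 ∈ S then 7 else 6, if 3 ∈ S then 3 else 0, if 5 ∈ S then 5 else 4}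

/-- `w`-functional -/
def fw (S : Finset (Fin 8)) : Fin 4 → ℤ :=
  ![if 2 ∈ S then 1 else -1, 0, 1, if 7 ∈ S then -1 else 1]

/-- dual functionals -/
def dual (S : Finset (Fin 8)) : Fin 8 → Fin 4 → ℤ :=
  ![-fw S, ![1, 0, 0, 0], ![-1, 0, 0, 0], fw S,
    ![0, 1, 0, 0] - (if 3 ∈ S then fw S else 0), -(![0, 1, 0, 0] - (if 3 ∈ S then fw S else 0)),
    ![0, 0, 0, 1], ![0, 0, 0, -1]]

lemma dual_spec : ∀ k : Fin 20, ∀ i ∈ ext (supp k), ∀ j ∈ ext (supp k),
    dot (dual (supp k) i) (r j) = if i = j then 1 else 0 := by decide +kernel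

lemma supp_ext : ∀ k : Fin 20, supp k ⊆ ext (supp k) := by decide +kernel

lemma dual_id : ∀ k : Fin 20, ∀ a b : Fin 4,
    ∑ i ∈ ext (supp k), dual (supp k) i a * r i b = if a = b then 1 else 0 := by decide +kernel

lemma supp_down : ∀ k : Fin 20, ∀ T ∈ (supp k).powerset, ∃ j, supp j = T := by decide +kernel

lemma supp_inj : ∀ k j : Fin 20, supp k = supp j → k = j := by decide +kernel

lemma supp_card : ∀ k : Fin 20, (supp k).card ≤ 2 := by decide +kernel

lemma supp_pure : ∀ k : Fin 20, ∃ j, supp k ⊆ supp j ∧ (supp j).card = 2 := by decide +kernel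

lemma supp_opp : ∀ k : Fin 20, (1 ∉ supp k ∨ 2 ∉ supp k) ∧ (6 ∉ supp k ∨ 7 ∉ supp k) ∧
    (3 ∉ supp k ∨ 0 ∉ supp k) ∧ (4 ∉ supp k ∨ 5 ∉ supp k) := by decide +kernel

/-! ### The cones -/

/-- the apex -/
def q0 : Fin 4 → ℝ := ![0, 0, 1, 0]

/-- combinations of the rays -/
noncomputable def comb (α : Fin 8 → ℝ) : Fin 4 → ℝ := q0 + ∑ i, α i • real (r i)

/-- the translated cones -/
def cone (S : Finset (Fin 8)) : Set (Fin 4 → ℝ) :=
  {x | ∃ α : Fin 8 → ℝ, (∀ i, 0 ≤ α i) ∧ (∀ i, i ∉ S → α i = 0) ∧ x = comb α}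

lemma comb_0 (α : Fin 8 → ℝ) : comb α 0 = α 1 - α 2 := by
  simp [comb, Fin.sum_univ_succ, real, r, q0]; ring

lemma comb_1 (α : Fin 8 → ℝ) : comb α 1 = α 3 + α 4 - α 5 := by
  simp [comb, Fin.sum_univ_succ, real, r, q0]; ring

lemma comb_2 (α : Fin 8 → ℝ) : comb α 2 = 1 - α 0 + α 1 + α 2 + α 3 - α 6 - α 7 := by
  simp [comb, Fin.sum_univ_succ, real, r, q0]; ring

lemma comb_3 (α : Fin 8 → ℝ) : comb α 3 = α 6 - α 7 := by
  simp [comb, Fin.sum_univ_succ, real, r, q0]; ring

/-- the piecewise linear coordinates -/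
noncomputable def co (x : Fin 4 → ℝ) : Fin 8 → ℝ :=
  ![max (-(x 2 - 1 - |x 0| + |x 3|)) 0, max (x 0) 0, max (-(x 0)) 0,
    max (x 2 - 1 - |x 0| + |x 3|) 0, max (x 1 - max (x 2 - 1 - |x 0| + |x 3|) 0) 0,
    max (-(x 1 - max (x 2 - 1 - |x 0| + |x 3|) 0)) 0, max (x 3) 0, max (-(x 3)) 0]

lemma parts {a b : ℝ} (ha : 0 ≤ a) (hb : 0 ≤ b) (h : a = 0 ∨ b = 0) :
    max (a - b) 0 = a ∧ max (-(a - b)) 0 = b ∧ |a - b| = a + b := by
  rcases h with h | h
  · subst h
    refine ⟨?_, ?_, ?_⟩
    · rw [max_eq_right]; linarith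
    · rw [max_eq_left]; ring; linarith
    · rw [zero_sub, abs_neg, abs_of_nonneg hb, zero_add]
  · subst h
    refine ⟨?_, ?_, ?_⟩
    · rw [max_eq_left]; ring; linarith
    · rw [max_eq_right]; linarith
    · rw [sub_zero, abs_of_nonneg ha, add_zero]

lemma co_comb {k : Fin 20} {α : Fin 8 → ℝ} (h0 : ∀ i, 0 ≤ α i)
    (h1 : ∀ i, i ∉ supp k → α i = 0) : co (comb α) = α := by
  obtain ⟨h12, h67, h30, h45⟩ := supp_opp k
  have p12 := parts (h0 1) (h0 2) (h12.imp (h1 _) (h1 _))
  have p67 := parts (h0 6) (h0 7) (h67.imp (h1 _) (h1 _))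
  have p30 := parts (h0 3) (h0 0) (h30.imp (h1 _) (h1 _))
  have p45 := parts (h0 4) (h0 5) (h45.imp (h1 _) (h1 _))
  have e : comb α 2 - 1 - |comb α 0| + |comb α 3| = α 3 - α 0 := by
    rw [comb_0, comb_2, comb_3, p12.2.2, p67.2.2]; ring
  have e2 : comb α 1 - max (α 3 - α 0) 0 = α 4 - α 5 := by
    rw [comb_1, p30.1]; ring
  funext i
  unfold co
  rw [e, e2, comb_0, comb_3]
  fin_cases i
  · exact p30.2.1
  · exact p12.1
  · exact p12.2.1
  · exact p30.1
  · exact p45.1
  · exact p45.2.1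
  · exact p67.1
  · exact p67.2.1

lemma mem_cone_co {k : Fin 20} {x : Fin 4 → ℝ} (hx : x ∈ cone (supp k)) :
    (∀ i, 0 ≤ co x i) ∧ (∀ i, i ∉ supp k → co x i = 0) ∧ x = comb (co x) := by
  obtain ⟨α, h0, h1, rfl⟩ := hx
  rw [co_comb h0 h1]
  exact ⟨h0, h1, rfl⟩

lemma cone_mono {S T : Finset (Fin 8)} (h : S ⊆ T) : cone S ⊆ cone T := by
  rintro x ⟨α, h0, h1, rfl⟩
  exact ⟨α, h0, fun i hi => h1 i fun h2 => hi (h h2), rfl⟩

lemma cone_inter (k j : Fin 20) : cone (supp k) ∩ cone (supp j) = cone (supp k ∩ supp j) := by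
  ext x
  constructor
  · rintro ⟨h1, h2⟩
    obtain ⟨a0, a1, a2⟩ := mem_cone_co h1
    obtain ⟨-, b1, -⟩ := mem_cone_co h2
    refine ⟨co x, a0, fun i hi => ?_, a2⟩
    rw [Finset.mem_inter, not_and_or] at hi
    exact hi.elim (a1 i) (b1 i)
  · intro h
    exact ⟨cone_mono Finset.inter_subset_left h, cone_mono Finset.inter_subset_right h⟩

lemma q0_mem (S : Finset (Fin 8)) : q0 ∈ cone S :=
  ⟨0, fun _ => le_rfl, fun _ _ => rfl, by simp [comb]⟩

lemma comb_add (α β : Fin 8 → ℝ) : comb (α + β) = comb α + ∑ i, β i • real (r i) := by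
  unfold comb
  rw [add_assoc, ← Finset.sum_add_distrib]
  congr 1
  refine Finset.sum_congr rfl fun i _ => ?_
  rw [Pi.add_apply, add_smul]

lemma sum_single (i : Fin 8) (c : ℝ) :
    ∑ j, (Pi.single i c : Fin 8 → ℝ) j • real (r j) = c • real (r i) := by
  rw [Finset.sum_eq_single i]
  · rw [Pi.single_eq_same]
  · intro j _ hj
    rw [Pi.single_eq_of_ne hj, zero_smul]
  · intro h; exact absurd (Finset.mem_univ _) h

lemma add_mem {S : Finset (Fin 8)} {x : Fin 4 → ℝ} (hx : x ∈ cone S) {i : Fin 8} (hi : i ∈ S)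
    {c : ℝ} (hc : 0 ≤ c) : x + c • real (r i) ∈ cone S := by
  obtain ⟨α, h0, h1, rfl⟩ := hx
  refine ⟨α + Pi.single i c, fun j => ?_, fun j hj => ?_, ?_⟩
  · rw [Pi.add_apply]
    refine add_nonneg (h0 j) ?_
    by_cases h : j = i
    · subst h; rw [Pi.single_eq_same]; exact hc
    · rw [Pi.single_eq_of_ne h]
  · rw [Pi.add_apply, h1 j hj, Pi.single_eq_of_ne, add_zero]
    rintro rfl; exact hj hi
  · rw [comb_add, sum_single]

/-- the direction space of the cone -/
def D (S : Finset (Fin 8)) : Submodule ℝ (Fin 4 → ℝ) :=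
  Submodule.span ℝ (real '' (r '' (S : Set (Fin 8))))

lemma real_mem_D {S : Finset (Fin 8)} {i : Fin 8} (hi : i ∈ S) : real (r i) ∈ D S :=
  Submodule.subset_span ⟨_, ⟨i, hi, rfl⟩, rfl⟩

lemma vs_cone (S : Finset (Fin 8)) : vectorSpan ℝ (cone S) = D S := by
  apply le_antisymm
  · rw [vectorSpan, Submodule.span_le]
    rintro _ ⟨x, ⟨α, -, h1, rfl⟩, y, ⟨β, -, h2, rfl⟩, rfl⟩
    have : comb α -ᵥ comb β = ∑ i, (α i - β i) • real (r i) := by
      simp only [comb, vsub_eq_sub, add_sub_add_left_eq_sub, ← Finset.sum_sub_distrib, sub_smul]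
    show comb α -ᵥ comb β ∈ D S
    rw [this]
    refine Submodule.sum_mem _ fun i _ => ?_
    by_cases hi : i ∈ S
    · exact Submodule.smul_mem _ _ (real_mem_D hi)
    · rw [h1 i hi, h2 i hi, sub_zero, zero_smul]
      exact Submodule.zero_mem _
  · rw [D, Submodule.span_le]
    rintro _ ⟨_, ⟨i, hi, rfl⟩, rfl⟩
    have h := vsub_mem_vectorSpan ℝ (add_mem (q0_mem S) hi (zero_le_one (α := ℝ))) (q0_mem S)
    simpa using h

/-! ### Dual functionals -/

/-- the linear functional given by an integer vector -/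
def lf (l : Fin 4 → ℤ) : (Fin 4 → ℝ) →ₗ[ℝ] ℝ := ∑ a, (l a : ℝ) • LinearMap.proj a

lemma lf_apply (l : Fin 4 → ℤ) (x : Fin 4 → ℝ) : lf l x = ∑ a, (l a : ℝ) * x a := by
  simp [lf]

lemma lf_real (l v : Fin 4 → ℤ) : lf l (real v) = (dot l v : ℝ) := by
  rw [lf_apply, dot]
  push_cast
  rfl

/-- dual functional of the ray `i` with respect to the cone `k` -/
def du (k : Fin 20) (i : Fin 8) : (Fin 4 → ℝ) →ₗ[ℝ] ℝ := lf (dual (supp k) i)

lemma du_ext (k : Fin 20) {i j : Fin 8} (hi : i ∈ ext (supp k)) (hj : j ∈ ext (supp k)) :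
    du k i (real (r j)) = if i = j then 1 else 0 := by
  rw [du, lf_real, dual_spec k i hi j hj]
  split_ifs <;> simp

lemma du_r (k : Fin 20) {i j : Fin 8} (hi : i ∈ supp k) (hj : j ∈ supp k) :
    du k i (real (r j)) = if i = j then 1 else 0 :=
  du_ext k (supp_ext k hi) (supp_ext k hj)

lemma reconstruct (k : Fin 20) (y : Fin 4 → ℝ) :
    ∑ i ∈ ext (supp k), du k i y • real (r i) = y := by
  funext b
  rw [Finset.sum_apply]
  have h : ∀ i, (du k i y • real (r i)) b = ∑ a, ((dual (supp k) i a * r i b : ℤ) : ℝ) * y a := by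
    intro i
    rw [Pi.smul_apply, du, lf_apply, smul_eq_mul, Finset.sum_mul]
    refine Finset.sum_congr rfl fun a _ => ?_
    push_cast
    simp only [real]
    ring
  simp only [h]
  rw [Finset.sum_comm]
  simp only [← Finset.sum_mul]
  have h2 : ∀ a, ∑ i ∈ ext (supp k), ((dual (supp k) i a * r i b : ℤ) : ℝ) =
      if a = b then 1 else 0 := by
    intro a
    rw [← Int.cast_sum, dual_id k a b]
    split_ifs <;> simp
  simp only [h2, ite_mul, one_mul, zero_mul]
  rw [Finset.sum_ite_eq' Finset.univ b]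
  simp

/-! ### Dimension, inequalities, faces -/

lemma li (k : Fin 20) : LinearIndependent ℝ (fun i : {i // i ∈ supp k} => real (r i)) := by
  rw [Fintype.linearIndependent_iff]
  intro g hg i
  have h := congrArg (du k i) hg
  rw [map_sum, map_zero] at h
  simp only [map_smul, smul_eq_mul] at h
  rw [Finset.sum_eq_single i] at h
  · rwa [du_r k i.2 i.2, if_pos rfl, mul_one] at h
  · intro j _ hj
    rw [du_r k i.2 j.2, if_neg fun h => hj (Subtype.ext h.symm), mul_zero]
  · intro h; exact absurd (Finset.mem_univ _) h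

lemma D_eq (S : Finset (Fin 8)) :
    D S = Submodule.span ℝ (Set.range fun i : {i // i ∈ S} => real (r i)) := by
  rw [D]
  congr 1
  ext x
  simp

lemma dim_cone (k : Fin 20) : dim (cone (supp k)) = (supp k).card := by
  rw [dim, vs_cone, D_eq, finrank_span_eq_card (li k), Fintype.card_coe]

lemma cone_poly (k : Fin 20) : IsPolyhedron (cone (supp k)) := by
  have key : ∀ x, x ∈ cone (supp k) ↔ ∀ i ∈ ext (supp k), 0 ≤ du k i (x - q0) ∧
      (i ∉ supp k → du k i (x - q0) ≤ 0) := by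
    intro x
    constructor
    · rintro ⟨α, h0, h1, rfl⟩ i hi
      have e : comb α - q0 = ∑ j, α j • real (r j) := by rw [comb, add_sub_cancel_left]
      have e2 : du k i (comb α - q0) = α i := by
        rw [e, map_sum]
        simp only [map_smul, smul_eq_mul]
        have : ∀ j, α j * du k i (real (r j)) = if j = i then α i else 0 := by
          intro j
          by_cases hj : j ∈ supp k
          · rw [du_ext k hi (supp_ext k hj)]
            by_cases hij : i = j
            · subst hij; rw [if_pos rfl, if_pos rfl, mul_one]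
            · rw [if_neg hij, if_neg (Ne.symm hij), mul_zero]
          · rw [h1 j hj, zero_mul]
            split_ifs with h
            · subst h; exact (h1 _ hj).symm
            · rfl
        simp only [this]
        rw [Finset.sum_ite_eq' Finset.univ i, if_pos (Finset.mem_univ _)]
      rw [e2]
      exact ⟨h0 i, fun h => (h1 i h).le⟩
    · intro h
      refine ⟨fun i => if i ∈ ext (supp k) then du k i (x - q0) else 0, fun i => ?_,
        fun i hi => ?_, ?_⟩
      · beta_reduce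
        split_ifs with hi
        · exact (h i hi).1
        · exact le_rfl
      · beta_reduce
        split_ifs with hi2
        · exact le_antisymm ((h i hi2).2 hi) (h i hi2).1
        · rfl
      · have e := reconstruct k (x - q0)
        rw [comb]
        simp only [ite_smul, zero_smul]
        rw [Finset.sum_ite_mem, Finset.univ_inter, e, add_sub_cancel]
  refine ⟨Fin 8 × Bool, inferInstance,
    fun j a => if j.2 then (if j.1 ∈ ext (supp k) then -(dual (supp k) j.1 a : ℝ) else 0)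
      else (if j.1 ∈ ext (supp k) \ supp k then (dual (supp k) j.1 a : ℝ) else 0),
    fun j => if j.2 then (if j.1 ∈ ext (supp k) then -(du k j.1 q0) else 0)
      else (if j.1 ∈ ext (supp k) \ supp k then du k j.1 q0 else 0), ?_⟩
  ext x
  rw [key, Set.mem_ofPred_eq]
  constructor
  · rintro h ⟨i, (_ | _)⟩
    · simp only [Bool.false_eq_true, if_false]
      split_ifs with hi
      · rw [Finset.mem_sdiff] at hi
        have := (h i hi.1).2 hi.2
        rw [map_sub] at this
        rw [← lf_apply]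
        show du k i x ≤ _
        linarith
      · simp
    · simp only [if_true]
      split_ifs with hi
      · have := (h i hi).1
        rw [map_sub] at this
        have e : ∑ a, -(dual (supp k) i a : ℝ) * x a = -(du k i x) := by
          rw [du, lf_apply, ← Finset.sum_neg_distrib]
          exact Finset.sum_congr rfl fun a _ => by ring
        rw [e]
        linarith
      · simp
  · intro h i hi
    constructor
    · have := h (i, true)
      simp only [if_true, if_pos hi] at this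
      have e : ∑ a, -(dual (supp k) i a : ℝ) * x a = -(du k i x) := by
        rw [du, lf_apply, ← Finset.sum_neg_distrib]
        exact Finset.sum_congr rfl fun a _ => by ring
      rw [e] at this
      rw [map_sub]
      linarith
    · intro hi2
      have := h (i, false)
      simp only [Bool.false_eq_true, if_false, if_pos (Finset.mem_sdiff.2 ⟨hi, hi2⟩)] at this
      rw [← lf_apply] at this
      rw [map_sub]
      have h3 : du k i x ≤ du k i q0 := this
      linarith

lemma map_comb (l : (Fin 4 → ℝ) →ₗ[ℝ] ℝ) (α : Fin 8 → ℝ) :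
    l (comb α) = l q0 + ∑ i, α i * l (real (r i)) := by
  rw [comb, map_add, map_sum]
  simp only [map_smul, smul_eq_mul]

/-- the maximum set of a functional which is nonpositive on the rays -/
lemma maxset {S : Finset (Fin 8)} {l : (Fin 4 → ℝ) →ₗ[ℝ] ℝ} (hl : ∀ i ∈ S, l (real (r i)) ≤ 0) :
    {x | x ∈ cone S ∧ ∀ y ∈ cone S, l y ≤ l x} =
      cone (S.filter fun i => l (real (r i)) = 0) := by
  classical
  ext x
  constructor
  · rintro ⟨⟨α, h0, h1, rfl⟩, h2⟩
    have h3 := h2 _ (q0_mem S)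
    rw [map_comb] at h3
    have hterm : ∀ i, α i * l (real (r i)) ≤ 0 := by
      intro i
      by_cases hi : i ∈ S
      · exact mul_nonpos_of_nonneg_of_nonpos (h0 i) (hl i hi)
      · rw [h1 i hi, zero_mul]
    have h4 : ∑ i, α i * l (real (r i)) = 0 :=
      le_antisymm (Finset.sum_nonpos fun i _ => hterm i) (by linarith)
    have h5 := (Finset.sum_eq_zero_iff_of_nonpos fun i _ => hterm i).1 h4
    refine ⟨α, h0, fun i hi => ?_, rfl⟩
    by_cases hi2 : i ∈ S
    · have h6 : l (real (r i)) ≠ 0 := fun h => hi (Finset.mem_filter.2 ⟨hi2, h⟩)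
      have := h5 i (Finset.mem_univ _)
      exact (mul_eq_zero.1 this).resolve_right h6
    · exact h1 i hi2
  · rintro ⟨α, h0, h1, rfl⟩
    refine ⟨⟨α, h0, fun i hi => h1 i fun h => hi (Finset.mem_filter.1 h).1, rfl⟩, ?_⟩
    rintro _ ⟨β, b0, b1, rfl⟩
    rw [map_comb, map_comb]
    have e1 : ∑ i, α i * l (real (r i)) = 0 := Finset.sum_eq_zero fun i _ => by
      by_cases hi : i ∈ S.filter fun i => l (real (r i)) = 0
      · rw [(Finset.mem_filter.1 hi).2, mul_zero]
      · rw [h1 i hi, zero_mul]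
    have e2 : ∑ i, β i * l (real (r i)) ≤ 0 := Finset.sum_nonpos fun i _ => by
      by_cases hi : i ∈ S
      · exact mul_nonpos_of_nonneg_of_nonpos (b0 i) (hl i hi)
      · rw [b1 i hi, zero_mul]
    linarith

lemma face_cone (k : Fin 20) (F : Set (Fin 4 → ℝ)) (h : IsFace F (cone (supp k))) :
    ∃ j, cone (supp j) = F := by
  classical
  obtain ⟨⟨x, hx⟩, l, rfl⟩ := h
  have hl : ∀ i ∈ supp k, l (real (r i)) ≤ 0 := by
    intro i hi
    have := hx.2 _ (add_mem hx.1 hi (zero_le_one (α := ℝ)))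
    rw [map_add, one_smul] at this
    linarith
  obtain ⟨j, hj⟩ := supp_down k ((supp k).filter fun i => l (real (r i)) = 0)
    (Finset.mem_powerset.2 (Finset.filter_subset _ _))
  exact ⟨j, by rw [maxset hl, hj]⟩

lemma isFace_cone (k : Fin 20) {T : Finset (Fin 8)} (hT : T ⊆ supp k) :
    IsFace (cone T) (cone (supp k)) := by
  classical
  refine ⟨⟨q0, q0_mem T⟩, -∑ i ∈ supp k \ T, du k i, ?_⟩
  have hval : ∀ j ∈ supp k, (-∑ i ∈ supp k \ T, du k i) (real (r j)) = if j ∈ T then 0 else -1 := by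
    intro j hj
    rw [LinearMap.neg_apply, LinearMap.sum_apply]
    have : ∀ i ∈ supp k \ T, du k i (real (r j)) = if i = j then 1 else 0 := fun i hi =>
      du_r k (Finset.mem_sdiff.1 hi).1 hj
    rw [Finset.sum_congr rfl this, Finset.sum_ite_eq' _ j]
    by_cases h : j ∈ T
    · rw [if_neg (fun h2 => (Finset.mem_sdiff.1 h2).2 h), if_pos h, neg_zero]
    · rw [if_pos (Finset.mem_sdiff.2 ⟨hj, h⟩), if_neg h]
  rw [maxset]
  · congr 1
    ext j
    rw [Finset.mem_filter]
    constructor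
    · intro h
      exact ⟨hT h, by rw [hval j (hT h), if_pos h]⟩
    · rintro ⟨h1, h2⟩
      by_contra h
      rw [hval j h1, if_neg h] at h2
      norm_num at h2
  · intro i hi
    rw [hval i hi]
    split_ifs <;> norm_num

lemma ray_mem {S T : Finset (Fin 8)} {k : Fin 20} (hk : supp k = T) {i : Fin 8} (hi : i ∈ S)
    (hki : ∃ j, supp j = S) (h : cone S ⊆ cone T) : i ∈ T := by
  obtain ⟨j, rfl⟩ := hki
  subst hk
  by_contra hn
  have h1 := add_mem (q0_mem (supp j)) hi (zero_le_one (α := ℝ))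
  have e : q0 + (1 : ℝ) • real (r i) = comb (Pi.single i 1) := by
    rw [comb, sum_single]
  rw [e] at h1
  have h2 := mem_cone_co (h h1)
  have h3 := h2.2.1 i hn
  rw [co_comb (k := j) (fun m => ?_) (fun m hm => ?_), Pi.single_eq_same] at h3
  · exact one_ne_zero h3
  · by_cases hm : m = i
    · subst hm; rw [Pi.single_eq_same]; exact zero_le_one
    · rw [Pi.single_eq_of_ne hm]
  · rw [Pi.single_eq_of_ne]
    rintro rfl
    exact hm hi

lemma cone_subset_iff (k j : Fin 20) : cone (supp k) ⊆ cone (supp j) ↔ supp k ⊆ supp j :=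
  ⟨fun h _ hi => ray_mem rfl hi ⟨k, rfl⟩ h, cone_mono⟩

/-- the rational complex -/
noncomputable def fanR : RationalComplex 4 where
  d := 2
  ι := Fin 20
  cell k := cone (supp k)
  inj := by
    intro k j h
    apply supp_inj
    exact Finset.Subset.antisymm ((cone_subset_iff k j).1 (Eq.subset h))
      ((cone_subset_iff j k).1 (Eq.subset h.symm))
  polyhedron := cone_poly
  nonempty k := ⟨q0, q0_mem _⟩
  rational k := ⟨r '' (supp k : Set (Fin 8)), vs_cone _⟩
  face := face_cone
  inter k j _ := by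
    rw [cone_inter]
    exact ⟨isFace_cone k Finset.inter_subset_left, isFace_cone j Finset.inter_subset_right⟩
  dim_le k := by rw [dim_cone]; exact supp_card k
  pure k := by
    obtain ⟨j, h1, h2⟩ := supp_pure k
    exact ⟨j, cone_mono h1, by rw [dim_cone]; exact h2⟩

/-! ### Primitive normal vectors and balancing -/

/-- the normal vector -/
def nv (t k : Fin 20) : Fin 4 → ℤ := ∑ j ∈ supp k \ supp t, r j

lemma du_D {t k : Fin 20} (htk : supp t ⊆ supp k) {j : Fin 8} (hj : j ∈ supp k \ supp t)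
    {y : Fin 4 → ℝ} (hy : y ∈ D (supp t)) : du k j y = 0 := by
  rw [Finset.mem_sdiff] at hj
  have : D (supp t) ≤ LinearMap.ker (du k j) := by
    rw [D, Submodule.span_le]
    rintro _ ⟨_, ⟨i, hi, rfl⟩, rfl⟩
    show du k j (real (r i)) = 0
    rw [du_r k hj.1 (htk hi), if_neg]
    rintro rfl
    exact hj.2 hi
  exact this hy

lemma repr_D (k : Fin 20) {y : Fin 4 → ℝ} (hy : y ∈ D (supp k)) :
    ∑ i ∈ supp k, du k i y • real (r i) = y := by
  rw [Finset.sum_subset (supp_ext k) (f := fun i => du k i y • real (r i))]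
  · exact reconstruct k y
  · intro i hi hn
    have : D (supp k) ≤ LinearMap.ker (du k i) := by
      rw [D, Submodule.span_le]
      rintro _ ⟨_, ⟨j, hj, rfl⟩, rfl⟩
      show du k i (real (r j)) = 0
      rw [du_ext k hi (supp_ext k hj), if_neg]
      rintro rfl
      exact hn hj
    have h : du k i y = 0 := this hy
    rw [h, zero_smul]

lemma sub_mem_D {t k : Fin 20} {j : Fin 8}
    (hj : supp k \ supp t = {j}) {y : Fin 4 → ℝ} (hy : y ∈ D (supp k)) :
    y - du k j y • real (r j) ∈ D (supp t) := by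
  have hjk : j ∈ supp k := by
    have : j ∈ supp k \ supp t := by rw [hj]; exact Finset.mem_singleton_self _
    exact (Finset.mem_sdiff.1 this).1
  have e := repr_D k hy
  rw [← Finset.sum_erase_add _ _ hjk] at e
  have e2 : y - du k j y • real (r j) = ∑ i ∈ (supp k).erase j, du k i y • real (r i) :=
    sub_eq_of_eq_add e.symm
  rw [e2]
  refine Submodule.sum_mem _ fun i hi => Submodule.smul_mem _ _ (real_mem_D ?_)
  rw [Finset.mem_erase] at hi
  by_contra hn
  have : i ∈ supp k \ supp t := Finset.mem_sdiff.2 ⟨hi.2, hn⟩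
  rw [hj, Finset.mem_singleton] at this
  exact hi.1 this

lemma isPrim {t k : Fin 20} {j : Fin 8} (hj : supp k \ supp t = {j}) :
    IsPrimitiveNormal (cone (supp t)) (cone (supp k)) (r j) := by
  have hjk : j ∈ supp k := by
    have : j ∈ supp k \ supp t := by rw [hj]; exact Finset.mem_singleton_self _
    exact (Finset.mem_sdiff.1 this).1
  refine ⟨?_, fun z hz => ?_, q0, q0_mem _, q0 + (1 : ℝ) • real (r j),
    add_mem (q0_mem _) hjk zero_le_one, 1, one_pos, ?_⟩
  · rw [vs_cone]; exact real_mem_D hjk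
  · rw [vs_cone] at hz ⊢
    refine ⟨dot (dual (supp k) j) z, ?_⟩
    have := sub_mem_D hj hz
    rwa [du, lf_real] at this
  · rw [add_sub_cancel_left, one_smul, one_smul, sub_self]
    exact Submodule.zero_mem _

lemma prim_unique {t k : Fin 20} (htk : supp t ⊆ supp k) {j : Fin 8}
    (hj : supp k \ supp t = {j}) {v : Fin 4 → ℤ}
    (hv : IsPrimitiveNormal (cone (supp t)) (cone (supp k)) v) :
    real v - real (r j) ∈ D (supp t) := by
  have hjd : j ∈ supp k \ supp t := by rw [hj]; exact Finset.mem_singleton_self _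
  have hjk := (Finset.mem_sdiff.1 hjd).1
  obtain ⟨h1, h2, x, hx, y, hy, c, hc, h3⟩ := hv
  rw [vs_cone] at h1 h3
  have hd : du k j (real v) = 1 := by
    obtain ⟨m, hm⟩ := h2 (r j) (by rw [vs_cone]; exact real_mem_D hjk)
    rw [vs_cone] at hm
    have e1 := du_D htk hjd hm
    rw [map_sub, map_smul, du_r k hjk hjk, if_pos rfl, smul_eq_mul, du, lf_real] at e1
    have e2 : m * dot (dual (supp k) j) v = 1 := by
      have : ((m * dot (dual (supp k) j) v : ℤ) : ℝ) = ((1 : ℤ) : ℝ) := by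
        push_cast; linarith
      exact_mod_cast this
    have e3 := du_D htk hjd h3
    rw [map_sub, map_smul, map_sub, smul_eq_mul] at e3
    have e4 : 0 ≤ du k j y - du k j x := by
      obtain ⟨α, a0, a1, rfl⟩ := hx
      obtain ⟨β, b0, b1, rfl⟩ := hy
      rw [map_comb, map_comb]
      have s1 : ∑ i, α i * du k j (real (r i)) = 0 := Finset.sum_eq_zero fun i _ => by
        by_cases hi : i ∈ supp t
        · rw [du_D htk hjd (real_mem_D hi), mul_zero]
        · rw [a1 i hi, zero_mul]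
      have s2 : 0 ≤ ∑ i, β i * du k j (real (r i)) := Finset.sum_nonneg fun i _ => by
        by_cases hi : i ∈ supp k
        · rw [du_r k hjk hi]
          split_ifs
          · rw [mul_one]; exact b0 i
          · rw [mul_zero]
        · rw [b1 i hi, zero_mul]
      linarith
    have e5 : 0 ≤ du k j (real v) := by
      have := mul_nonneg hc.le e4
      linarith
    rw [du, lf_real] at e5 ⊢
    have e6 : 0 ≤ dot (dual (supp k) j) v := by exact_mod_cast e5
    have e7 : dot (dual (supp k) j) v = 1 := by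
      rcases Int.eq_one_or_neg_one_of_mul_eq_one' e2 with h | h
      · exact h.2
      · omega
    rw [e7]; norm_num
  have := sub_mem_D hj h1
  rwa [hd, one_smul] at this

lemma sdiff_single : ∀ t k : Fin 20, (supp t).card = 1 → (supp k).card = 2 → supp t ⊆ supp k →
    ∃ j, supp k \ supp t = {j} ∧ nv t k = r j := by decide +kernel

lemma balance : ∀ t : Fin 20, (supp t).card = 1 → ∃ m ∈ ({-2, -1, 0, 1, 2} : Finset ℤ),
    ∑ k, (if (supp k).card = 2 ∧ supp t ⊆ supp k then (wt k : ℤ) • nv t k else 0) =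
      m • ∑ i ∈ supp t, r i := by decide +kernel

lemma real_sum {κ : Type} (s : Finset κ) (g : κ → Fin 4 → ℤ) :
    real (∑ i ∈ s, g i) = ∑ i ∈ s, real (g i) := by
  funext a
  simp [real, Finset.sum_apply]

lemma real_smul (m : ℤ) (g : Fin 4 → ℤ) : real (m • g) = (m : ℝ) • real g := by
  funext a
  simp [real]

lemma cond_iff (t k : Fin 20) : (dim (fanR.cell k) = fanR.d ∧ fanR.cell t ⊆ fanR.cell k) ↔
    ((supp k).card = 2 ∧ supp t ⊆ supp k) := by
  show (dim (cone (supp k)) = 2 ∧ cone (supp t) ⊆ cone (supp k)) ↔ _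
  rw [dim_cone, cone_subset_iff]

open Classical in
lemma fan_balanced : fanR.IsBalanced (fun k => ((wt k : ℕ) : ℝ)) := by
  intro (t : Fin 20) ht
  have ht1 : (supp t).card = 1 := by
    have : dim (cone (supp t)) + 1 = 2 := ht
    rw [dim_cone] at this
    omega
  refine ⟨fun k => nv t k, fun (k : Fin 20) hk => ?_, ?_⟩
  · rw [cond_iff] at hk
    obtain ⟨j, h1, h2⟩ := sdiff_single t k ht1 hk.1 hk.2
    show IsPrimitiveNormal (cone (supp t)) (cone (supp k)) (nv t k)
    rw [h2]
    exact isPrim h1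
  · show _ ∈ vectorSpan ℝ (cone (supp t))
    rw [vs_cone]
    obtain ⟨m, -, hm⟩ := balance t ht1
    have e : (∑ k : Fin 20, if dim (fanR.cell k) = fanR.d ∧ fanR.cell t ⊆ fanR.cell k then
        (wt k : ℝ) • real (nv t k) else 0) = (m : ℝ) • ∑ i ∈ supp t, real (r i) := by
      rw [← real_sum, ← real_smul, ← hm, real_sum]
      refine Finset.sum_congr rfl fun k _ => ?_
      by_cases h : (supp k).card = 2 ∧ supp t ⊆ supp k
      · rw [if_pos h, if_pos ((cond_iff t k).2 h), real_smul]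
        norm_num
      · rw [if_neg h, if_neg (fun h2 => h ((cond_iff t k).1 h2))]
        funext a; simp [real]
    have e' := e
    refine (congrArg (· ∈ D (supp t)) ?_).mpr (Submodule.smul_mem _ (m : ℝ)
      (Submodule.sum_mem _ fun i hi => real_mem_D hi))
    exact e

/-- the balanced fan -/
noncomputable def fan : BalancedComplex 4 where
  toRationalComplex := fanR
  weight := wt
  weight_pos k _ := by
    show 0 < wt k
    unfold wt; split_ifs <;> norm_num
  balanced := fan_balanced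

/-- coefficients -/
def cf (t : Fin 20) (φ : Fin 4 → ℤ) (k : Fin 20) : ℤ :=
  if (supp k).card = 2 ∧ supp t ⊆ supp k then dot φ (nv t k) else 0

lemma bal_eq {w : Fin 20 → ℝ} (hw : fanR.IsBalanced w) (t : Fin 20) (ht : (supp t).card = 1)
    (φ : Fin 4 → ℤ) (hφ : ∀ i ∈ supp t, dot φ (r i) = 0) : ∑ k, (cf t φ k : ℝ) * w k = 0 := by
  obtain ⟨v, h1, h2⟩ := hw t (by
    show dim (cone (supp t)) + 1 = 2
    rw [dim_cone, ht])
  have hD : ∀ y ∈ D (supp t), lf φ y = 0 := by
    intro y hy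
    have : D (supp t) ≤ LinearMap.ker (lf φ) := by
      rw [D, Submodule.span_le]
      rintro _ ⟨_, ⟨i, hi, rfl⟩, rfl⟩
      show lf φ (real (r i)) = 0
      rw [lf_real, hφ i hi]
      norm_num
    exact this hy
  have h3 : lf φ _ = 0 := hD _ (by
    have : _ ∈ vectorSpan ℝ (cone (supp t)) := h2
    rwa [vs_cone] at this)
  rw [map_sum] at h3
  rw [← h3]
  refine Finset.sum_congr rfl fun k _ => ?_
  by_cases h : (supp k).card = 2 ∧ supp t ⊆ supp k
  · rw [if_pos ((cond_iff t k).2 h), cf, if_pos h, map_smul, smul_eq_mul]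
    obtain ⟨j, e1, e2⟩ := sdiff_single t k ht h.1 h.2
    have h4 := hD _ (prim_unique h.2 e1 (h1 k ((cond_iff t k).2 h)))
    rw [map_sub, sub_eq_zero] at h4
    rw [h4, lf_real, e2, mul_comm]
  · rw [if_neg (fun h2 => h ((cond_iff t k).1 h2)), cf, if_neg h, map_zero]
    norm_num

lemma fan_irreducible : fan.Irreducible := by
  intro (w : Fin 20 → ℝ) hw
  have key := fun t ht φ hφ => bal_eq (w := w) hw t ht φ hφ
  have c1 : cf 2 ![0, 1, 0, 0] = ![0,0,0,0,0,0,0,0,0, 0,0,1,0,-1,0,0,0,0,0,0] := by decide +kernel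
  have c2 : cf 2 ![-1, 0, 1, 0] = ![0,0,0,0,0,0,0,0,0, -1,0,1,0,0,0,0,0,0,0,0] := by decide +kernel
  have c3 : cf 3 ![0, 1, 0, 0] = ![0,0,0,0,0,0,0,0,0, 0,0,0,1,0,-1,0,0,0,0,0] := by decide +kernel
  have c4 : cf 3 ![1, 0, 1, 0] = ![0,0,0,0,0,0,0,0,0, 0,-1,0,1,0,0,0,0,0,0,0] := by decide +kernel
  have c5 : cf 1 ![1, 0, 0, 0] = ![0,0,0,0,0,0,0,0,0, 1,-1,0,0,0,0,0,0,0,0,0] := by decide +kernel
  have c6 : cf 4 ![0, -1, 1, 0] = ![0,0,0,0,0,0,0,0,0, 0,0,1,1,0,0,-1,0,0,0,0] := by decide +kernel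
  have c7 : cf 6 ![0, 0, 0, 1] = ![0,0,0,0,0,0,0,0,0, 0,0,0,0,0,0,0,0,1,0,-1] := by decide +kernel
  have c8 : cf 6 ![0, 0, 1, 0] = ![0,0,0,0,0,0,0,0,0, 0,0,0,0,1,1,0,0,-1,0,-1] := by decide +kernel
  have c9 : cf 7 ![0, 1, 0, 0] = ![0,0,0,0,0,0,0,0,0, 0,0,0,0,0,0,0,1,-1,0,0] := by decide +kernel
  have c10 : cf 8 ![0, 1, 0, 0] = ![0,0,0,0,0,0,0,0,0, 0,0,0,0,0,0,0,0,0,1,-1] := by decide +kernel
  have e1 := key 2 (by decide) ![0, 1, 0, 0] (by decide)
  have e2 := key 2 (by decide) ![-1, 0, 1, 0] (by decide)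
  have e3 := key 3 (by decide) ![0, 1, 0, 0] (by decide)
  have e4 := key 3 (by decide) ![1, 0, 1, 0] (by decide)
  have e5 := key 1 (by decide) ![1, 0, 0, 0] (by decide)
  have e6 := key 4 (by decide) ![0, -1, 1, 0] (by decide)
  have e7 := key 6 (by decide) ![0, 0, 0, 1] (by decide)
  have e8 := key 6 (by decide) ![0, 0, 1, 0] (by decide)
  have e9 := key 7 (by decide) ![0, 1, 0, 0] (by decide)
  have e10 := key 8 (by decide) ![0, 1, 0, 0] (by decide)
  rw [c1] at e1; rw [c2] at e2; rw [c3] at e3; rw [c4] at e4; rw [c5] at e5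
  rw [c6] at e6; rw [c7] at e7; rw [c8] at e8; rw [c9] at e9; rw [c10] at e10
  simp [Fin.sum_univ_succ] at e1 e2 e3 e4 e5 e6 e7 e8 e9 e10
  clear c1 c2 c3 c4 c5 c6 c7 c8 c9 c10 key hw
  refine ⟨w 9, fun (i : Fin 20) hi => ?_⟩
  have hi2 : (supp i).card = 2 := by
    have : dim (cone (supp i)) = 2 := hi
    rwa [dim_cone] at this
  clear hi
  show w i = w 9 * ((wt i : ℕ) : ℝ)
  have hw0 : ∀ i : Fin 20, i ≠ 15 → (supp i).card = 2 → i ∈ ({9, 10, 11, 12, 13, 14, 16, 17, 18, 19} :
      Finset (Fin 20)) := by decide +kernel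
  by_cases h15 : i = 15
  · subst h15
    have : ((wt 15 : ℕ) : ℝ) = 2 := by norm_num [wt]
    rw [this]; linarith
  · have h1 : ((wt i : ℕ) : ℝ) = 1 := by rw [wt, if_neg h15]; norm_num
    rw [h1, mul_one]
    have h2 := hw0 i h15 hi2
    simp only [Finset.mem_insert, Finset.mem_singleton] at h2
    rcases h2 with h | h | h | h | h | h | h | h | h | h <;> subst h <;> linarith

/-! ### The plane -/

/-- the plane `x₂ = x₃ = 0` -/
def L : Submodule ℝ (Fin 4 → ℝ) where
  carrier := {x | x 1 = 0 ∧ x 2 = 0}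
  add_mem' := by
    rintro x y ⟨h1, h2⟩ ⟨h3, h4⟩
    exact ⟨by rw [Pi.add_apply, h1, h3, add_zero], by rw [Pi.add_apply, h2, h4, add_zero]⟩
  zero_mem' := ⟨rfl, rfl⟩
  smul_mem' := by
    rintro c x ⟨h1, h2⟩
    exact ⟨by rw [Pi.smul_apply, h1, smul_zero], by rw [Pi.smul_apply, h2, smul_zero]⟩

lemma mem_L (x : Fin 4 → ℝ) : x ∈ L ↔ x 1 = 0 ∧ x 2 = 0 := Iff.rfl

lemma vs_L : vectorSpan ℝ (L : Set (Fin 4 → ℝ)) = L := by
  apply le_antisymm
  · rw [vectorSpan, Submodule.span_le]
    rintro _ ⟨x, hx, y, hy, rfl⟩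
    exact L.sub_mem hx hy
  · intro x hx
    have := vsub_mem_vectorSpan ℝ (s := (L : Set (Fin 4 → ℝ))) hx L.zero_mem
    simpa using this

/-- the integer vectors spanning the plane -/
def bs : Fin 2 → Fin 4 → ℤ := ![![1, 0, 0, 0], ![0, 0, 0, 1]]

lemma L_span : L = Submodule.span ℝ (Set.range fun i => real (bs i)) := by
  apply le_antisymm
  · intro x hx
    have : x = x 0 • real (bs 0) + x 3 • real (bs 1) := by
      funext a
      fin_cases a
      · simp [real, bs]
      · simp [real, bs, hx.1]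
      · simp [real, bs, hx.2]
      · simp [real, bs]
    rw [this]
    exact Submodule.add_mem _ (Submodule.smul_mem _ _ (Submodule.subset_span ⟨0, rfl⟩))
      (Submodule.smul_mem _ _ (Submodule.subset_span ⟨1, rfl⟩))
  · rw [Submodule.span_le]
    rintro _ ⟨i, rfl⟩
    fin_cases i
    · exact ⟨by simp [real, bs], by simp [real, bs]⟩
    · exact ⟨by simp [real, bs], by simp [real, bs]⟩

lemma dim_L : dim (L : Set (Fin 4 → ℝ)) = 2 := by
  rw [dim, vs_L, L_span, finrank_span_eq_card, Fintype.card_fin]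
  rw [Fintype.linearIndependent_iff]
  intro g hg i
  rw [Fin.sum_univ_two] at hg
  have h0 := congrFun hg 0
  have h3 := congrFun hg 3
  simp [real, bs] at h0 h3
  fin_cases i
  · exact h0
  · exact h3

lemma face_L (F : Set (Fin 4 → ℝ)) (h : IsFace F (L : Set (Fin 4 → ℝ))) :
    (L : Set (Fin 4 → ℝ)) = F := by
  obtain ⟨⟨x, hx⟩, l, rfl⟩ := h
  have hz : ∀ z ∈ L, l z = 0 := by
    intro z hzL
    have h1 := hx.2 (x + z) (L.add_mem hx.1 hzL)
    have h2 := hx.2 (x - z) (L.sub_mem hx.1 hzL)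
    rw [map_add] at h1
    rw [map_sub] at h2
    linarith
  ext y
  constructor
  · intro hy
    exact ⟨hy, fun z hzL => by rw [hz z hzL, hz y hy]⟩
  · intro hy
    exact hy.1

lemma isFace_L : IsFace (L : Set (Fin 4 → ℝ)) (L : Set (Fin 4 → ℝ)) := by
  refine ⟨⟨0, L.zero_mem⟩, 0, ?_⟩
  ext y
  constructor
  · intro hy
    exact ⟨hy, fun z _ => le_rfl⟩
  · intro hy
    exact hy.1

lemma L_poly : IsPolyhedron (L : Set (Fin 4 → ℝ)) := by
  refine ⟨Fin 4, inferInstance, ![![0, 1, 0, 0], ![0, -1, 0, 0], ![0, 0, 1, 0], ![0, 0, -1, 0]],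
    fun _ => 0, ?_⟩
  ext x
  constructor
  · rintro ⟨h1, h2⟩ j
    fin_cases j <;> simp [Fin.sum_univ_succ, h1, h2]
  · intro h
    have h0 := h 0
    have h1 := h 1
    have h2 := h 2
    have h3 := h 3
    simp [Fin.sum_univ_succ] at h0 h1 h2 h3
    exact ⟨le_antisymm h0 h1, le_antisymm h2 h3⟩

/-- the plane as a rational complex with one cell -/
noncomputable def planeR : RationalComplex 4 where
  d := 2
  ι := Unit
  cell _ := (L : Set (Fin 4 → ℝ))
  inj := fun _ _ _ => rfl
  polyhedron _ := L_poly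
  nonempty _ := ⟨0, L.zero_mem⟩
  rational _ := ⟨Set.range bs, by
    rw [vs_L, L_span]
    congr 1
    ext x
    simp⟩
  face _ F h := ⟨(), face_L F h⟩
  inter _ _ _ := by
    rw [Set.inter_self]
    exact ⟨isFace_L, isFace_L⟩
  dim_le _ := dim_L.le
  pure _ := ⟨(), subset_rfl, dim_L⟩

lemma plane_balanced (w : planeR.ι → ℝ) : planeR.IsBalanced w := by
  intro t ht
  have : dim (L : Set (Fin 4 → ℝ)) + 1 = 2 := ht
  rw [dim_L] at this
  omega

/-- the plane as a balanced complex -/
noncomputable def plane : BalancedComplex 4 where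
  toRationalComplex := planeR
  weight _ := 1
  weight_pos _ _ := one_pos
  balanced := plane_balanced _

/-- a point of the support of the fan with coordinates -/
lemma point {x : Fin 4 → ℝ} (h1 : x 1 = 0) (h2 : x 2 = 0) {k : Fin 20} (hk : x ∈ cone (supp k)) :
    (x 3 = 0 ∧ 0 ∈ supp k) ∨ x 3 = 1 ∨ x 3 = -1 := by
  obtain ⟨h0, hs, -⟩ := mem_cone_co hk
  have w : x 2 - 1 - |x 0| + |x 3| = -1 - |x 0| + |x 3| := by rw [h2]; ring
  have c0 : co x 0 = max (-(-1 - |x 0| + |x 3|)) 0 := by rw [← w]; rfl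
  have c1 : co x 1 = max (x 0) 0 := rfl
  have c2 : co x 2 = max (-(x 0)) 0 := rfl
  have c3 : co x 3 = max (-1 - |x 0| + |x 3|) 0 := by rw [← w]; rfl
  have c6 : co x 6 = max (x 3) 0 := rfl
  have c7 : co x 7 = max (-(x 3)) 0 := rfl
  by_cases hx3 : x 3 = 0
  · left
    refine ⟨hx3, ?_⟩
    by_contra hn
    have := hs 0 hn
    rw [c0, hx3, abs_zero] at this
    have h5 := le_max_left (-(-1 - |x 0| + 0)) 0
    have h6 := abs_nonneg (x 0)
    linarith
  · right
    have h67 : 6 ∈ supp k ∨ 7 ∈ supp k := by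
      by_contra hn
      rw [not_or] at hn
      have e6 := hs 6 hn.1
      have e7 := hs 7 hn.2
      rw [c6] at e6
      rw [c7] at e7
      apply hx3
      have := le_max_left (x 3) 0
      have := le_max_left (-(x 3)) 0
      linarith
    have hd : ∀ k : Fin 20, 6 ∈ supp k ∨ 7 ∈ supp k → 0 ∉ supp k ∧ 1 ∉ supp k ∧ 2 ∉ supp k ∧
      3 ∉ supp k := by decide +kernel
    obtain ⟨n0, n1, n2, n3⟩ := hd k h67
    have e0 := hs 0 n0
    have e1 := hs 1 n1
    have e2 := hs 2 n2
    have e3 := hs 3 n3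
    rw [c0] at e0
    rw [c1] at e1
    rw [c2] at e2
    rw [c3] at e3
    have i0 := le_max_left (-(-1 - |x 0| + |x 3|)) 0
    have i1 := le_max_left (x 0) 0
    have i2 := le_max_left (-(x 0)) 0
    have i3 := le_max_left (-1 - |x 0| + |x 3|) 0
    have hx0 : x 0 = 0 := by linarith
    rw [hx0, abs_zero] at i0 i3 e0 e3
    have : |x 3| = 1 := by linarith
    exact eq_or_eq_neg_of_abs_eq this

/-- the points of the intersection with vanishing last coordinate are not stable -/
lemma not_stable {x : Fin 4 → ℝ} (hx3 : x 3 = 0) : x ∉ stableSupport fan plane := by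
  rintro ⟨k, j, hk, hj, hs⟩
  have hk' : x ∈ cone (supp k) := hk
  have hj' : x ∈ L := hj
  have h0 : 0 ∈ supp k := by
    rcases point hj'.1 hj'.2 hk' with h | h | h
    · exact h.2
    · rw [hx3] at h; norm_num at h
    · rw [hx3] at h; norm_num at h
  have hd : ∀ k : Fin 20, 0 ∈ supp k → ∀ i ∈ supp k, r i 1 = 0 := by decide +kernel
  have hs' : vectorSpan ℝ (cone (supp k)) ⊔ vectorSpan ℝ (L : Set (Fin 4 → ℝ)) = ⊤ := hs
  rw [vs_cone, vs_L] at hs'
  have hle : D (supp k) ⊔ L ≤ LinearMap.ker (LinearMap.proj (R := ℝ) (φ := fun _ => ℝ) (1 : Fin 4)) := by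
    refine sup_le ?_ ?_
    · rw [D, Submodule.span_le]
      rintro _ ⟨_, ⟨i, hi, rfl⟩, rfl⟩
      show real (r i) 1 = 0
      rw [real, hd k h0 i hi]
      norm_num
    · intro y hy
      exact hy.1
  rw [hs'] at hle
  have h1 : (fun _ => 1 : Fin 4 → ℝ) ∈
      LinearMap.ker (LinearMap.proj (R := ℝ) (φ := fun _ => ℝ) (1 : Fin 4)) := hle trivial
  have h2 : (1 : ℝ) = 0 := h1
  exact one_ne_zero h2

lemma stable_nonempty : (stableSupport fan plane).Nonempty := by
  refine ⟨![0, 0, 0, 1], (16 : Fin 20), (), ?_, ?_, ?_⟩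
  · show ![0, 0, 0, 1] ∈ cone (supp 16)
    have h := add_mem (q0_mem (supp 16)) (i := 6) (by decide) (zero_le_one (α := ℝ))
    have e : q0 + (1 : ℝ) • real (r 6) = ![0, 0, 0, 1] := by
      funext a
      fin_cases a <;> simp [q0, real, r]
    rwa [e] at h
  · exact ⟨rfl, rfl⟩
  · show vectorSpan ℝ (cone (supp 16)) ⊔ vectorSpan ℝ (L : Set (Fin 4 → ℝ)) = ⊤
    rw [vs_cone, vs_L, eq_top_iff]
    intro y _
    have h4 : real (r 4) ∈ D (supp 16) := real_mem_D (by decide)
    have h6 : real (r 6) ∈ D (supp 16) := real_mem_D (by decide)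
    rw [Submodule.mem_sup]
    refine ⟨y 1 • real (r 4) + (-(y 2)) • real (r 6),
      Submodule.add_mem _ (Submodule.smul_mem _ _ h4) (Submodule.smul_mem _ _ h6),
      ![y 0, 0, 0, y 3 + y 2], ⟨rfl, rfl⟩, ?_⟩
    funext a
    fin_cases a <;> simp [real, r]

/-- **Negative answer to Q1, with irreducible complexes.** -/
theorem result : ∃ S T : BalancedComplex 4, S.d = 2 ∧ T.d = 2 ∧ S.Irreducible ∧ T.Irreducible ∧
    T.support = {x | x 1 = 0 ∧ x 2 = 0} ∧
    (stableSupport S T).Nonempty ∧ ∃ x ∈ S.support ∩ T.support,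
      Disjoint (connectedComponentIn (S.support ∩ T.support) x) (stableSupport S T) := by
  refine ⟨fan, plane, rfl, rfl, fan_irreducible, ?_, ?_, stable_nonempty, 0, ?_, ?_⟩
  · intro w _
    exact ⟨w (), fun _ _ => by
      show w () = w () * ((1 : ℕ) : ℝ)
      norm_num⟩
  · ext x
    exact ⟨fun ⟨_, h⟩ => h, fun h => ⟨(), h⟩⟩
  · refine ⟨⟨(1 : Fin 20), ?_⟩, (), L.zero_mem⟩
    show (0 : Fin 4 → ℝ) ∈ cone (supp 1)
    have h := add_mem (q0_mem (supp 1)) (i := 0) (by decide) (zero_le_one (α := ℝ))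
    have e : q0 + (1 : ℝ) • real (r 0) = 0 := by
      funext a
      fin_cases a <;> simp [q0, real, r]
    rwa [e] at h
  · rw [Set.disjoint_left]
    intro x hx
    refine not_stable ?_
    -- the last coordinate is constant on the component
    have hpre : IsPreconnected
        (connectedComponentIn (fan.support ∩ plane.support) (0 : Fin 4 → ℝ)) :=
      isPreconnected_connectedComponentIn
    have h0 : (0 : Fin 4 → ℝ) ∈ connectedComponentIn (fan.support ∩ plane.support) 0 := by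
      refine mem_connectedComponentIn ?_
      by_contra hn
      rw [connectedComponentIn_eq_empty hn] at hx
      exact hx
    have himg := (hpre.image (fun y : Fin 4 → ℝ => y 3) (continuous_apply 3).continuousOn).ordConnected
    have hval : ∀ y ∈ connectedComponentIn (fan.support ∩ plane.support) (0 : Fin 4 → ℝ),
        y 3 = 0 ∨ y 3 = 1 ∨ y 3 = -1 := by
      intro y hy
      obtain ⟨⟨k, hk⟩, ⟨j, hj⟩⟩ := connectedComponentIn_subset _ _ hy
      have hj' : y ∈ L := hj
      exact (point hj'.1 hj'.2 (k := k) hk).imp (fun h => h.1) id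
    have h0' : (0 : ℝ) ∈ (fun y : Fin 4 → ℝ => y 3) ''
      connectedComponentIn (fan.support ∩ plane.support) (0 : Fin 4 → ℝ) := ⟨0, h0, rfl⟩
    rcases hval x hx with h | h | h
    · exact h
    · exfalso
      have h1 : (1 : ℝ) ∈ (fun y : Fin 4 → ℝ => y 3) ''
        connectedComponentIn (fan.support ∩ plane.support) (0 : Fin 4 → ℝ) := ⟨x, hx, h⟩
      obtain ⟨y, hy, hy2⟩ := himg.out h0' h1 (⟨by norm_num, by norm_num⟩ : (1 / 2 : ℝ) ∈ Set.Icc 0 1)
      have hy3 : y 3 = 1 / 2 := hy2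
      rcases hval y hy with h | h | h <;> rw [hy3] at h <;> norm_num at h
    · exfalso
      have h1 : (-1 : ℝ) ∈ (fun y : Fin 4 → ℝ => y 3) ''
        connectedComponentIn (fan.support ∩ plane.support) (0 : Fin 4 → ℝ) := ⟨x, hx, h⟩
      obtain ⟨y, hy, hy2⟩ := himg.out h1 h0'
        (⟨by norm_num, by norm_num⟩ : (-1 / 2 : ℝ) ∈ Set.Icc (-1) 0)
      have hy3 : y 3 = -1 / 2 := hy2
      rcases hval y hy with h | h | h <;> rw [hy3] at h <;> norm_num at h

end Pool.Agent.Results.MP_7d0545_co.IrreducibleComplex
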